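import Pool.Agent.Helper77.RL.Goals
import Pool.Agent.Helper90.RP.SUB
import Pool.Agent.Helper59.RP.BIN
import Pool.Agent.Helper94.RS.Emb

/-!
# Packet RL-LSD (MP_fc6b1e_nt): descent of the logarithmic condition
-/

namespace Pool.Agent.Helper40.RL

open NumberField Polynomial Module IsDedekindDomain Pool.Agent.Helper51.SigLeo
  Pool.Agent.Helper51.RP Pool.Agent.Helper77.RL Pool.Agent.Helper90.RP

section emb

/-- Embeddings of number fields in `k` extend. -/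
theorem ext_emb {k : Type} [Field k] [CharZero k] (hj : Nonempty (AlgebraicClosure ℚ →+* k))
    {M M' : Type} [Field M] [NumberField M] [Field M'] [NumberField M'] [Algebra M M']
    (τ : M →+* k) : ∃ τ' : M' →+* k, τ'.comp (algebraMap M M') = τ := by
  obtain ⟨j⟩ := hj
  obtain ⟨σ, hσ⟩ := Pool.Agent.Helper94.RS.exists_factor j τ
  let := σ.toAlgebra
  have : Algebra.IsAlgebraic M M' := by
    have : FiniteDimensional M M' := Module.Finite.of_restrictScalars_finite ℚ M M'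
    infer_instance
  let f : M' →ₐ[M] AlgebraicClosure ℚ := IsAlgClosed.lift
  refine ⟨j.comp (f : M' →+* AlgebraicClosure ℚ), ?_⟩
  rw [hσ, RingHom.comp_assoc]
  congr 1
  ext x
  exact f.commutes x

end emb

section sm

variable {p : ℕ} {k : Type} [NormedField k] (L : IwasawaLog p k)

/-- A unit of norm 1 with small logarithm. -/
def Sm (N : ℕ) (u : kˣ) : Prop := ‖(u : k)‖ = 1 ∧ ‖L.toFun u‖ ≤ (1 / p : ℝ) ^ N

theorem sm_one (N : ℕ) : Sm L N 1 := by
  refine ⟨by simp, ?_⟩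
  rw [L_one, norm_zero]
  positivity

variable {L}

theorem sm_mul [IsUltrametricDist k] {N : ℕ} {u v : kˣ} (hu : Sm L N u) (hv : Sm L N v) :
    Sm L N (u * v) := by
  refine ⟨?_, ?_⟩
  · rw [Units.val_mul, norm_mul, hu.1, hv.1, mul_one]
  · rw [L.map_mul]
    exact (IsUltrametricDist.norm_add_le_max _ _).trans (max_le hu.2 hv.2)

theorem sm_pow [IsUltrametricDist k] {N : ℕ} {u : kˣ} (hu : Sm L N u) (n : ℕ) :
    Sm L N (u ^ n) := by
  induction n with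
  | zero => rw [pow_zero]; exact sm_one L N
  | succ n ih => rw [pow_succ]; exact sm_mul ih hu

variable {M : Type} [Field M] {T : Set (M →+* k)}

theorem sig_pow [IsUltrametricDist k] {N : ℕ} {x : Mˣ} (hx : SigSmall L T N x) (n : ℕ) :
    SigSmall L T N (x ^ n) := by
  induction n with
  | zero => rw [pow_zero]; exact sig_one L N
  | succ n ih => rw [pow_succ]; exact sig_mul L ih hx

theorem sig_zpow [IsUltrametricDist k] {N : ℕ} {x : Mˣ} (hx : SigSmall L T N x) (n : ℤ) :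
    SigSmall L T N (x ^ n) := by
  cases n with
  | ofNat n => rw [Int.ofNat_eq_natCast, zpow_natCast]; exact sig_pow hx n
  | negSucc n => rw [zpow_negSucc]; exact sig_inv L (sig_pow hx _)

theorem sig_pull {N : ℕ} {x : Mˣ} (hx : SigSmall L T N x) (f : M →+* M)
    (hf : ∀ τ ∈ T, τ.comp f ∈ T) : SigSmall L T N (Units.map (f : M →* M) x) := by
  intro τ hτ
  exact hx _ (hf τ hτ)

theorem sig_mono {N N' : ℕ} (hN : N ≤ N') (hp : 1 ≤ p) {x : Mˣ} (hx : SigSmall L T N' x) :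
    SigSmall L T N x := by
  intro τ hτ
  refine ⟨(hx τ hτ).1, (hx τ hτ).2.trans ?_⟩
  have h1 : (1 : ℝ) ≤ p := by exact_mod_cast hp
  apply pow_le_pow_of_le_one (by positivity) _ hN
  rw [div_le_one (by positivity)]
  exact h1

theorem stab_pow {K : Type} [Field K] [Algebra K M] (δ : M ≃ₐ[K] M)
    (hT : ∀ τ ∈ T, τ.comp (δ : M →+* M) ∈ T) (n : ℕ) :
    ∀ τ ∈ T, τ.comp ((δ ^ n : M ≃ₐ[K] M) : M →+* M) ∈ T := by
  induction n with
  | zero =>
    intro τ hτ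
    have h1 : τ.comp ((δ ^ 0 : M ≃ₐ[K] M) : M →+* M) = τ := by
      ext x
      simp
    rw [h1]
    exact hτ
  | succ n ih =>
    intro τ hτ
    have h1 : τ.comp ((δ ^ (n + 1) : M ≃ₐ[K] M) : M →+* M) =
        (τ.comp ((δ ^ n : M ≃ₐ[K] M) : M →+* M)).comp (δ : M →+* M) := by
      ext x
      rw [pow_succ]
      rfl
    rw [h1]
    exact hT _ (ih τ hτ)

theorem sig_act [IsUltrametricDist k] {K : Type} [Field K] [Algebra K M] (δ : M ≃ₐ[K] M)
    (hT : ∀ τ ∈ T, τ.comp (δ : M →+* M) ∈ T) {N : ℕ} {x : Mˣ} (hx : SigSmall L T N x)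
    (Q : ℤ[X]) : SigSmall L T N (act δ Q x) := by
  induction Q using Polynomial.induction_on' with
  | add A B hA hB => rw [act_add]; exact sig_mul L hA hB
  | monomial n a =>
    rw [← C_mul_X_pow_eq_monomial, act_mul, act_C, act_X_pow]
    exact sig_zpow (sig_pull hx _ (stab_pow δ hT n)) a

end sm

section key

variable {p : ℕ} [Fact p.Prime] {k : Type} [NormedField k] [NormedAlgebra ℚ_[p] k]
  [IsUltrametricDist k] {M M' : Type} [Field M] [Field M'] [Algebra M M'] [IsGalois M M']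
  [FiniteDimensional M M']

/-- The value of the weighted trace. -/
theorem key (n N q' : ℕ) (hdeg : finrank M M' = p ^ n) (ε : ℝ) (hε : ε = (1 / p : ℝ) ^ (N + n + 1))
    (E : M') (y₂ : M'ˣ) (τ' : M' →+* k)
    (hnorm : ∀ g : M' ≃ₐ[M] M', ‖τ' (g (y₂ : M'))‖ = ‖τ' (y₂ : M')‖)
    (hcase : ((∀ g : M' ≃ₐ[M] M', ‖τ' (g E) - ((p : k) ^ n)⁻¹‖ ≤ ε * (1 / p : ℝ) ^ n) ∧
        (∀ g : M' ≃ₐ[M] M', ‖τ' (g (y₂ : M') / y₂) ^ q' - 1‖ ≤ ε)) ∨
      (‖τ' E - 1‖ ≤ ε * (1 / p : ℝ) ^ n ∧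
        ∀ g : M' ≃ₐ[M] M', g ≠ 1 → ‖τ' (g E)‖ ≤ ε * (1 / p : ℝ) ^ n)) :
    ‖τ' (algebraMap M M' (Algebra.trace M M' (E * (y₂ : M') ^ q'))) / τ' (y₂ : M') ^ q' - 1‖ ≤
      (1 / p : ℝ) ^ (N + 1) := by
  classical
  have hp : p.Prime := Fact.out
  have hp1 : (1 : ℝ) < p := by exact_mod_cast hp.one_lt
  have hq0 : (0 : ℝ) < 1 / p := by positivity
  have hq1 : (1 / p : ℝ) ≤ 1 := by
    rw [div_le_one (by positivity)]; exact hp1.le
  have hpk : (p : k) ≠ 0 := by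
    intro h0
    have h1 := Pool.Agent.Helper59.RP.norm_p (k := k) p
    rw [h0, norm_zero] at h1
    linarith
  have hτy : τ' (y₂ : M') ≠ 0 := by
    rw [_root_.map_ne_zero]
    exact y₂.ne_zero
  have hεn : ε * (1 / p : ℝ) ^ n ≤ (1 / p : ℝ) ^ (N + 1) := by
    rw [hε, ← pow_add]
    exact pow_le_pow_of_le_one hq0.le hq1 (by omega)
  have hεp : ((1 / p : ℝ) ^ n)⁻¹ * ε = (1 / p : ℝ) ^ (N + 1) := by
    rw [hε, show N + n + 1 = n + (N + 1) by omega, pow_add, ← mul_assoc,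
      inv_mul_cancel₀ (pow_ne_zero _ hq0.ne'), one_mul]
  set w : (M' ≃ₐ[M] M') → k := fun g ↦ τ' (g (y₂ : M') / y₂) ^ q' with hw
  have hw1 : ∀ g, ‖w g‖ = 1 := by
    intro g
    rw [hw]
    simp only [norm_pow, map_div₀, norm_div]
    rw [hnorm g, div_self (norm_ne_zero_iff.2 hτy), one_pow]
  have hsum : τ' (algebraMap M M' (Algebra.trace M M' (E * (y₂ : M') ^ q'))) / τ' (y₂ : M') ^ q' =
      ∑ g : M' ≃ₐ[M] M', τ' (g E) * w g := by
    rw [trace_eq_sum_automorphisms, map_sum, Finset.sum_div]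
    refine Finset.sum_congr rfl fun g _ ↦ ?_
    rw [hw]
    simp only [map_mul, map_pow, map_div₀, div_pow]
    ring
  rw [hsum]
  have hcard : Fintype.card (M' ≃ₐ[M] M') = p ^ n := by
    rw [← Nat.card_eq_fintype_card, IsGalois.card_aut_eq_finrank, hdeg]
  rcases hcase with ⟨hE, hY⟩ | ⟨hE1, hE⟩
  · have hone : (1 : k) = ∑ _g : M' ≃ₐ[M] M', ((p : k) ^ n)⁻¹ := by
      rw [Finset.sum_const, Finset.card_univ, hcard, nsmul_eq_mul, Nat.cast_pow,
        mul_inv_cancel₀ (pow_ne_zero _ hpk)]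
    rw [hone, ← Finset.sum_sub_distrib]
    refine IsUltrametricDist.norm_sum_le_of_forall_le_of_nonneg (by positivity) fun g _ ↦ ?_
    have h1 : τ' (g E) * w g - ((p : k) ^ n)⁻¹ =
        (τ' (g E) - ((p : k) ^ n)⁻¹) * w g + ((p : k) ^ n)⁻¹ * (w g - 1) := by ring
    rw [h1]
    refine (IsUltrametricDist.norm_add_le_max _ _).trans (max_le ?_ ?_)
    · rw [norm_mul, hw1, mul_one]
      exact (hE g).trans hεn
    · rw [norm_mul, norm_inv, norm_pow, Pool.Agent.Helper59.RP.norm_p p, ← hεp]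
      exact mul_le_mul_of_nonneg_left (hY g) (by positivity)
  · have hone : (1 : k) = ∑ g : M' ≃ₐ[M] M', if g = 1 then 1 else 0 := by
      rw [Finset.sum_ite_eq' Finset.univ (1 : M' ≃ₐ[M] M')]
      simp
    rw [hone, ← Finset.sum_sub_distrib]
    refine IsUltrametricDist.norm_sum_le_of_forall_le_of_nonneg (by positivity) fun g _ ↦ ?_
    by_cases hg : g = 1
    · have h2 : w g = 1 := by
        rw [hw, hg]
        simp
      rw [if_pos hg, h2, mul_one, hg]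
      exact hE1.trans hεn
    · rw [if_neg hg, sub_zero, norm_mul, hw1, mul_one]
      exact (hE g hg).trans hεn

end key

/-- **L_LSD.** -/
theorem l_lsd (h1 : Pool.Agent.Helper77.RL.L_TOR) (h2 : Pool.Agent.Helper77.RL.L_WGT)
    (h3 : Pool.Agent.Helper77.RL.L_POL) : Pool.Agent.Helper77.RL.L_LSD := by
  intro p _ k _ _ _ hj L K M M' Ω _ _ _ _ _ _ _ _ _ _ _ _ _ _ m n δ δ₁ P hirr hd T hT x hx
    hloc
  have hp : p.Prime := Fact.out
  have hp1 : (1 : ℝ) < p := by exact_mod_cast hp.one_lt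
  have hq0 : (0 : ℝ) < 1 / p := by positivity
  have hqlt : (1 / p : ℝ) < 1 := by
    rw [div_lt_one (by positivity)]; exact hp1
  have : IsGalois M M' := hd.gal
  have : FiniteDimensional M M' := Module.Finite.of_restrictScalars_finite ℚ M M'
  have : CharZero k := charZero_of_injective_algebraMap (algebraMap ℚ_[p] k).injective
  set T₁ : Set (M →+* k) := above T with hT₁
  set T₂ : Set (M' →+* k) := above T₁ with hT₂
  have res : ∀ τ' : M' →+* k, (τ'.comp (algebraMap M M')).comp (algebraMap K M) =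
      τ'.comp (algebraMap K M') := by
    intro τ'
    ext r
    simp [← IsScalarTower.algebraMap_apply K M M' r]
  have resδ : ∀ τ' : M' →+* k, (τ'.comp (δ₁ : M' →+* M')).comp (algebraMap K M') =
      τ'.comp (algebraMap K M') := by
    intro τ'
    ext r
    simp
  have resg : ∀ (g : M' ≃ₐ[M] M') (τ' : M' →+* k),
      (τ'.comp (g : M' →+* M')).comp (algebraMap M M') = τ'.comp (algebraMap M M') := by
    intro g τ'
    ext r
    simp
  have resgK : ∀ (g : M' ≃ₐ[M] M') (τ' : M' →+* k),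
      (τ'.comp (g : M' →+* M')).comp (algebraMap K M') = τ'.comp (algebraMap K M') := by
    intro g τ'
    rw [← res, resg, res]
  have mem2 : ∀ τ' : M' →+* k, τ' ∈ T₂ ↔ τ'.comp (algebraMap K M') ∈ T := by
    intro τ'
    rw [← res]
    exact Iff.rfl
  set TB : (K →+* k) → Prop := fun σ ↦ ∀ τ : Ω →+* k, τ.comp (algebraMap K Ω) = σ → NoTor P δ₁ τ
    with hTB
  set TA : (K →+* k) → Prop := fun σ ↦ ∀ τ' : M' →+* k, τ'.comp (algebraMap K M') = σ →
    SplitAt M τ' with hTA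
  set B₂ : Set (M' →+* k) := {τ' | τ' ∈ T₂ ∧ TB (τ'.comp (algebraMap K M'))} with hB₂
  set A : Set (M →+* k) := {τ | τ ∈ T₁ ∧ TA (τ.comp (algebraMap K M))} with hA
  set B : Set (M →+* k) := {τ | τ ∈ T₁ ∧ TB (τ.comp (algebraMap K M))} with hB
  have stδ : ∀ τ' ∈ T₂, τ'.comp (δ₁ : M' →+* M') ∈ T₂ := by
    intro τ' hτ'
    rw [mem2, resδ]
    exact (mem2 τ').1 hτ'
  have stg : ∀ g : M' ≃ₐ[M] M', ∀ τ' ∈ T₂, τ'.comp (g : M' →+* M') ∈ T₂ := by
    intro g τ' hτ'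
    rw [mem2, resgK]
    exact (mem2 τ').1 hτ'
  obtain ⟨q', Q, C', hq', hq'p, hQ, htor⟩ := h1 p k hj L K M M' Ω m n δ δ₁ P hirr hd T₂ B₂
    (fun τ' hτ' ↦ hτ'.1) stδ
    (fun τ' hτ' ↦ ⟨stδ τ' hτ'.1, by rw [resδ]; exact hτ'.2⟩)
    (fun g ↦ ⟨stg g, fun τ' hτ' ↦ ⟨stg g τ' hτ'.1, by rw [resgK]; exact hτ'.2⟩⟩)
    (fun τ hτ ↦ hτ.2 τ (by
      ext r
      simp [← IsScalarTower.algebraMap_apply K M' Ω r]))
  -- the case of the empty set
  intro N
  rcases Set.eq_empty_or_nonempty T₁ with hemp | ⟨τ₀, hτ₀⟩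
  · refine ⟨1, fun τ hτ ↦ ?_⟩
    rw [hemp] at hτ
    exact absurd hτ (Set.notMem_empty τ)
  have hε0 : (0 : ℝ) < (1 / p : ℝ) ^ (N + n + 1) := by positivity
  obtain ⟨N₁, hN₁⟩ := htor _ hε0 (pow_lt_one₀ hq0.le hqlt (by omega))
  obtain ⟨y, hy⟩ := hloc (max N₁ N)
  have hy1 : SigSmall L T₂ N₁ (up x * y ^ p) := sig_mono (le_max_left _ _) hp.one_lt.le hy
  have hyN : SigSmall L T₂ N (up x * y ^ p) := sig_mono (le_max_right _ _) hp.one_lt.le hy
  set x₂ : Mˣ := act δ Q (act δ Q x) with hx₂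
  set y₂ : M'ˣ := act δ₁ Q (act δ₁ Q y) with hy₂
  have hup : ∀ a : Mˣ, act δ₁ Q (up a) = up (act δ Q a) := by
    intro a
    exact (act_map (algebraMap M M') δ δ₁ (fun r ↦ (hd.ext r).symm) Q a).symm
  have hz₂ : act δ₁ Q (act δ₁ Q (up x * y ^ p)) = up x₂ * y₂ ^ p := by
    rw [map_mul, map_mul, map_pow, map_pow, hup, hup]
  have hzs : SigSmall L T₂ N (up x₂ * y₂ ^ p) := by
    rw [← hz₂]
    exact sig_act δ₁ stδ (sig_act δ₁ stδ hyN Q) Q
  have hupv : ∀ (a : Mˣ) (τ' : M' →+* k), τ' ((up a : M'ˣ) : M') = τ'.comp (algebraMap M M') a :=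
    fun a τ' ↦ rfl
  have hnorm : ∀ τ' ∈ T₂, ∀ g : M' ≃ₐ[M] M', ‖τ' (g (y₂ : M'))‖ = ‖τ' (y₂ : M')‖ := by
    intro τ' hτ' g
    have e1 := (hzs τ' hτ').1
    have e2 := (hzs _ (stg g τ' hτ')).1
    rw [Units.val_mul, Units.val_pow_eq_pow_val, map_mul, map_pow, hupv, norm_mul, norm_pow] at e1 e2
    rw [resg] at e2
    have hne : ‖τ'.comp (algebraMap M M') (x₂ : M)‖ ≠ 0 := by
      rw [norm_ne_zero_iff, _root_.map_ne_zero]
      exact x₂.ne_zero
    have e3 : ‖(τ'.comp (g : M' →+* M')) (y₂ : M')‖ ^ p = ‖τ' (y₂ : M')‖ ^ p :=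
      mul_left_cancel₀ hne (e2.trans e1.symm)
    exact (pow_left_inj₀ (norm_nonneg _) (norm_nonneg _) hp.ne_zero).1 e3
  have hεn : (0 : ℝ) < (1 / p : ℝ) ^ (N + n + 1) * (1 / p : ℝ) ^ n := by positivity
  obtain ⟨E, hE⟩ := h2 p k hj M M' n hd.deg A B
    (fun τ' hτ' ↦ hτ'.2 τ' (res τ').symm) _ hεn
  set c : M := Algebra.trace M M' (E * (y₂ : M') ^ q') with hc
  have hAB : ∀ τ ∈ T₁, τ ∈ A ∪ B := by
    intro τ hτ
    rcases hT (τ.comp (algebraMap K M)) hτ with h | h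
    · exact Or.inl ⟨hτ, h⟩
    · exact Or.inr ⟨hτ, h⟩
  have hkey : ∀ τ ∈ T₁, ∃ τ' ∈ T₂, τ'.comp (algebraMap M M') = τ ∧
      ‖τ c / τ' (y₂ : M') ^ q' - 1‖ ≤ (1 / p : ℝ) ^ (N + 1) := by
    intro τ hτ
    rcases hE τ (hAB τ hτ) with ⟨hτB, hb⟩ | ⟨τ', hτ', ha1, ha⟩
    · obtain ⟨τ', hτ'⟩ := ext_emb hj (M' := M') τ
      have hτ'2 : τ' ∈ T₂ := by
        show τ'.comp (algebraMap M M') ∈ T₁
        rw [hτ']
        exact hτ
      have hτ'B : τ' ∈ B₂ := by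
        refine ⟨hτ'2, ?_⟩
        rw [← res, hτ']
        exact hτB.2
      refine ⟨τ', hτ'2, hτ', ?_⟩
      have := key n N q' hd.deg _ rfl E y₂ τ' (hnorm τ' hτ'2) (Or.inl
        ⟨fun g ↦ hb (τ'.comp (g : M' →+* M')) (by rw [resg, hτ']),
          fun g ↦ hN₁ x y hy1 y₂ rfl g τ' hτ'B⟩)
      rw [← hτ']
      exact this
    · have hτ'2 : τ' ∈ T₂ := by
        show τ'.comp (algebraMap M M') ∈ T₁
        rw [hτ']
        exact hτ
      refine ⟨τ', hτ'2, hτ', ?_⟩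
      have := key n N q' hd.deg _ rfl E y₂ τ' (hnorm τ' hτ'2) (Or.inr ⟨ha1, ha⟩)
      rw [← hτ']
      exact this
  have hlt1 : (1 / p : ℝ) ^ (N + 1) < 1 := pow_lt_one₀ hq0.le hqlt (by omega)
  have hc0 : c ≠ 0 := by
    obtain ⟨τ', -, -, h⟩ := hkey τ₀ hτ₀
    intro h0
    rw [h0, map_zero, zero_div, zero_sub, norm_neg, norm_one] at h
    linarith
  set cu : Mˣ := Units.mk0 c hc0 with hcu
  have hW : SigSmall L T₁ N (x₂ ^ q' * cu ^ p) := by
    intro τ hτ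
    obtain ⟨τ', hτ'2, hτ', hf⟩ := hkey τ hτ
    set F : kˣ := Units.map (τ : M →* k) cu / Units.map (τ' : M' →* k) y₂ ^ q' with hF
    have hFv : (F : k) = τ c / τ' (y₂ : M') ^ q' := by
      rw [hF, Units.val_div_eq_div_val, Units.val_pow_eq_pow_val]
      rfl
    have hF1 : ‖(F : k) - 1‖ ≤ (1 / p : ℝ) ^ (N + 1) := by
      rw [hFv]
      exact hf
    have hFS : Sm L N F := by
      refine ⟨?_, ?_⟩
      · have h4 : ‖(F : k) - 1‖ < ‖(1 : k)‖ := by
          rw [norm_one]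
          exact hF1.trans_lt hlt1
        have h5 : ‖((F : k) - 1) + 1‖ = max ‖(F : k) - 1‖ ‖(1 : k)‖ :=
          IsUltrametricDist.norm_add_eq_max_of_norm_ne_norm h4.ne
        rw [sub_add_cancel, max_eq_right h4.le, norm_one] at h5
        exact h5
      · exact (Pool.Agent.Helper59.RP.log_small L F (N + 1) (by omega) hF1).trans
          (pow_le_pow_of_le_one hq0.le hqlt.le (by omega))
    have hzS : Sm L N (Units.map (τ' : M' →* k) (up x₂ * y₂ ^ p)) := hzs τ' hτ'2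
    have hx₂v : Units.map (τ : M →* k) x₂ = Units.map (τ' : M' →* k) (up x₂) := by
      ext
      rw [← hτ']
      rfl
    have heq : Units.map (τ : M →* k) (x₂ ^ q' * cu ^ p) =
        Units.map (τ' : M' →* k) (up x₂ * y₂ ^ p) ^ q' * F ^ p := by
      rw [map_mul, map_pow, map_pow, map_mul, map_pow, hx₂v, hF, div_pow, mul_pow, ← pow_mul,
        ← pow_mul, mul_comm p q']
      rw [mul_assoc, mul_div_cancel]
    show Sm L N (Units.map (τ : M →* k) (x₂ ^ q' * cu ^ p))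
    rw [heq]
    exact sm_mul (sm_pow hzS q') (sm_pow hFS p)
  obtain ⟨n₁, -, hn₁⟩ := Nat.exists_mul_mod_eq_one_of_coprime hq'p hp.one_lt
  set n₂ := q' * n₁ / p with hn₂
  have hn : q' * n₁ = 1 + p * n₂ := by
    have h := Nat.div_add_mod (q' * n₁) p
    rw [hn₁] at h
    rw [← h, add_comm]
  obtain ⟨a, ha⟩ := h3 p K M δ P C' Q hQ x hx
  have hx₂a : x₂ = x * (a * act δ Q a) ^ p := by
    rw [hx₂, ha, map_mul, map_pow, ha, mul_pow, mul_assoc]
  refine ⟨a * act δ Q a * (x₂ ^ n₂ * cu ^ n₁), ?_⟩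
  have hfin : x * (a * act δ Q a * (x₂ ^ n₂ * cu ^ n₁)) ^ p = (x₂ ^ q' * cu ^ p) ^ n₁ := by
    rw [mul_pow (a * act δ Q a), ← mul_assoc, ← hx₂a, mul_pow, mul_pow, ← pow_mul, ← pow_mul,
      ← pow_mul, ← pow_mul, hn, pow_add, pow_one, mul_comm n₂ p, mul_comm n₁ p, mul_assoc]
  rw [hfin]
  exact sig_pow hW n₁

end Pool.Agent.Helper40.RL
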